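import Pool.Agent.helper32.EXC.Spec11

/-!
# Project EXC (MP_561ff4_al), block `r = 11` in `E₈(q)`: row BEX

For independent extremal `c, c'` there is an extremal `b` with prescribed nonzero `fm c b`, `fm c' b`.
-/

set_option autoImplicit false

open Finset

namespace Pool.Agent.EXC

/-- a matrix of rank one and trace zero with two prescribed entries -/
theorem T11BEX_mat {F : Type} [Field F] (P Q : F) (hP : P ≠ 0) (a b : Fin 6)
    (h : (a = 1 ∧ b = 0) ∨ (a = 1 ∧ b = 2) ∨ (a = 2 ∧ b = 3) ∨ (a = 0 ∧ b = 2)) :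
    ∃ u φ : Fin 6 → F, u ≠ 0 ∧ φ ≠ 0 ∧ ∑ i, φ i * u i = 0 ∧ u 1 * φ 0 = P ∧ u b * φ a = Q := by
  rcases h with ⟨rfl, rfl⟩ | ⟨rfl, rfl⟩ | ⟨rfl, rfl⟩ | ⟨rfl, rfl⟩
  · refine ⟨![1, 1, 1, 0, 0, 0], ![P, Q, -P - Q, 0, 0, 0], ?_, ?_, ?_, ?_, ?_⟩
    · intro h
      have := congrFun h 0
      simp at this
    · intro h
      have := congrFun h 0
      simp at this
      exact hP this
    · simp [Fin.sum_univ_succ]
    · simp
    · simp
  · refine ⟨![0, 1, 1, 0, 0, 0], ![P, Q, -Q, 0, 0, 0], ?_, ?_, ?_, ?_, ?_⟩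
    · intro h
      have := congrFun h 1
      simp at this
    · intro h
      have := congrFun h 0
      simp at this
      exact hP this
    · simp [Fin.sum_univ_succ]
    · simp
    · simp
  · refine ⟨![0, 1, 0, 1, 0, 0], ![P, 0, Q, 0, 0, 0], ?_, ?_, ?_, ?_, ?_⟩
    · intro h
      have := congrFun h 1
      simp at this
    · intro h
      have := congrFun h 0
      simp at this
      exact hP this
    · simp [Fin.sum_univ_succ]
    · simp
    · simp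
  · refine ⟨![0, P, Q, 0, 0, 0], ![1, 0, 0, 0, 0, 0], ?_, ?_, ?_, ?_, ?_⟩
    · intro h
      have := congrFun h 1
      simp at this
      exact hP this
    · intro h
      have := congrFun h 0
      simp at this
    · simp [Fin.sum_univ_succ]
    · simp
    · simp

theorem T11BEX (hT11RK1 : T11RK1_stmt) (hIOT : IOT_stmt) (hRHO : RHO_stmt) (hTHT : THT_stmt) (hNBR : NBR_stmt)
    (hWPG : WPG_stmt) (hPCL : PCL_stmt) (hTPF : TPF_stmt) (hRFL : RFL_stmt) (hEXF : EXF_stmt) : T11BEX_stmt := by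
  intro n C _ F _ j0 θ δ hE c c' hc hc' hind k k' hk _
  have hβ := (hNBR n C j0 θ δ hE).1
  have hR := hRHO n C j0 θ δ hE
  have hX := hEXF n C F hβ
  -- the roots `ρ_ab`
  have hroot : ∀ a b : Fin 6, a ≠ b → ip C (ro δ a b) (ro δ a b) = 2 := by
    intro a b hab
    rw [hR.1 a b a b, if_pos rfl, if_pos rfl, if_neg hab, if_neg fun h => hab h.symm]
    norm_num
  obtain ⟨m, hm1, hm2, hT⟩ := hPCL n C F j0 θ δ hE c c' hc hc'
  have hm3 : m ≠ 2 := by
    intro h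
    obtain ⟨κ, hκ⟩ := ((hTPF n C F θ hE.th2 hβ c c' m hT).2.2.2.2.1).1 h
    exact hind κ hκ
  obtain ⟨g, hg, β, hβ2, hθβ, κ, κ', hκ, hκ', e1, e2⟩ := hT
  -- the pair `(θ, β)` is in the orbit of `(ρ_01, ρ_ab)`
  obtain ⟨a, b, hab, hWP⟩ : ∃ a b : Fin 6, ((a = 1 ∧ b = 0) ∨ (a = 1 ∧ b = 2) ∨ (a = 2 ∧ b = 3) ∨ (a = 0 ∧ b = 2)) ∧
      WP C (θ, β) (ro δ 0 1, ro δ a b) := by
    have h4 : m = -2 ∨ m = -1 ∨ m = 0 ∨ m = 1 := by omega
    rcases h4 with h | h | h | h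
    · refine ⟨1, 0, Or.inl ⟨rfl, rfl⟩, ?_⟩
      refine hTHT n C j0 θ δ hE θ β _ _ hE.th2 hβ2 (hroot 0 1 (by decide)) (hroot 1 0 (by decide)) ?_
        (Or.inl (by rw [hθβ, h]))
      rw [hθβ, h, hR.1 0 1 1 0]
      decide
    · refine ⟨1, 2, Or.inr (Or.inl ⟨rfl, rfl⟩), ?_⟩
      refine hTHT n C j0 θ δ hE θ β _ _ hE.th2 hβ2 (hroot 0 1 (by decide)) (hroot 1 2 (by decide)) ?_
        (Or.inr (Or.inl (by rw [hθβ, h])))
      rw [hθβ, h, hR.1 0 1 1 2]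
      decide
    · refine ⟨2, 3, Or.inr (Or.inr (Or.inl ⟨rfl, rfl⟩)), ?_⟩
      refine hTHT n C j0 θ δ hE θ β _ _ hE.th2 hβ2 (hroot 0 1 (by decide)) (hroot 2 3 (by decide)) ?_
        (Or.inr (Or.inr (by rw [hθβ, h])))
      rw [hθβ, h, hR.1 0 1 2 3]
      decide
    · refine ⟨0, 2, Or.inr (Or.inr (Or.inr ⟨rfl, rfl⟩)), ?_⟩
      have h1 : ip C θ (-β) = -1 := by rw [ip_neg_right, hθβ, h]
      have h2 : WP C (θ, -β) (ro δ 0 1, ro δ 2 0) := by
        refine hTHT n C j0 θ δ hE θ (-β) _ _ hE.th2 (neg_root C hβ2) (hroot 0 1 (by decide)) (hroot 2 0 (by decide)) ?_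
          (Or.inr (Or.inl h1))
        rw [h1, hR.1 0 1 2 0]
        decide
      have h3 : WP C ((fun p : (Fin n → ℤ) × (Fin n → ℤ) => (p.1, -p.2)) (θ, -β))
          ((fun p : (Fin n → ℤ) × (Fin n → ℤ) => (p.1, -p.2)) (ro δ 0 1, ro δ 2 0)) := by
        have hstep : ∀ p q : (Fin n → ℤ) × (Fin n → ℤ), (∃ i, q = (rf C i p.1, rf C i p.2)) →
            ∃ i, ((q.1, -q.2) : (Fin n → ℤ) × (Fin n → ℤ)) = (rf C i p.1, rf C i (-p.2)) := by
          rintro p q ⟨i, rfl⟩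
          refine ⟨i, ?_⟩
          change (rf C i p.1, -rf C i p.2) = (rf C i p.1, rf C i (-p.2))
          rw [(hRFL n C i p.2 p.2).2.2.1]
        exact Relation.ReflTransGen.lift (fun p : (Fin n → ℤ) × (Fin n → ℤ) => (p.1, -p.2)) hstep _ _ h2
      have h4 : -ro δ 2 0 = ro δ 0 2 := (hR.2.2.2.1 2 0).symm
      have h5 : (θ, β) = ((fun p : (Fin n → ℤ) × (Fin n → ℤ) => (p.1, -p.2)) (θ, -β)) := by
        change (θ, β) = (θ, - -β)
        rw [neg_neg]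
      have h6 : (ro δ 0 1, ro δ 0 2) = ((fun p : (Fin n → ℤ) × (Fin n → ℤ) => (p.1, -p.2)) (ro δ 0 1, ro δ 2 0)) := by
        change (ro δ 0 1, ro δ 0 2) = (ro δ 0 1, -ro δ 2 0)
        rw [h4]
      rw [h5, h6]
      exact h3
  have hab' : a ≠ b := by
    rcases hab with ⟨rfl, rfl⟩ | ⟨rfl, rfl⟩ | ⟨rfl, rfl⟩ | ⟨rfl, rfl⟩ <;> decide
  obtain ⟨w, hw, s, s', hs, hs', f1, f2⟩ := hWPG n C F hβ θ β _ _ hE.th2 hβ2 hWP
  have hsF : (s : F) ≠ 0 := by
    rcases hs with rfl | rfl <;> simp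
  have hsF' : (s' : F) ≠ 0 := by
    rcases hs' with rfl | rfl <;> simp
  have het : (et a b : F) ≠ 0 := by
    unfold et
    split_ifs <;> simp
  -- the element `h = w g`
  have hh : w * g ∈ GE C F := (GE C F).mul_mem hw hg
  have g1 : (w * g) c = (κ * s) • (E C (ro δ 0 1) : Lm C F) := by
    change w (g c) = _
    rw [e1, map_smul, f1, smul_smul]
  have g2 : (w * g) c' = (κ' * s') • (E C (ro δ a b) : Lm C F) := by
    change w (g c') = _
    rw [e2, map_smul, f2, smul_smul]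
  have hK : κ * (s : F) ≠ 0 := mul_ne_zero hκ hsF
  have hK' : κ' * (s' : F) ≠ 0 := mul_ne_zero hκ' hsF'
  obtain ⟨u, φ, hu, hφ, htr, hM1, hM2⟩ := T11BEX_mat (k / (κ * s)) (-(k' / (κ' * s' * et a b)))
    (div_ne_zero hk hK) a b hab
  have hEx := hT11RK1 n C F j0 θ δ hE u φ hu hφ htr
  have htr' : (Matrix.vecMulVec u φ).trace = 0 := by
    rw [Matrix.trace_vecMulVec]
    rw [← htr]
    exact Finset.sum_congr rfl fun i _ => mul_comm _ _
  have i1 := (hIOT n C F j0 θ δ hE 0 1 (by decide) (Matrix.vecMulVec u φ) htr').2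
  have i2 := (hIOT n C F j0 θ δ hE a b hab' (Matrix.vecMulVec u φ) htr').2
  rw [Matrix.vecMulVec_apply] at i1 i2
  have het01 : (et 0 1 : ℤ) = -1 := by decide
  have hAu := hX.1 (w * g) hh
  refine ⟨(w * g)⁻¹ (io C δ (Matrix.vecMulVec u φ)), (hX.2.2.1 _ hEx).2.2.1 _ ((GE C F).inv_mem hh), ?_, ?_⟩
  · rw [← hAu.fm c, g1]
    have h1 : (w * g) ((w * g)⁻¹ (io C δ (Matrix.vecMulVec u φ))) = io C δ (Matrix.vecMulVec u φ) := by
      change ((w * g) * (w * g)⁻¹) (io C δ (Matrix.vecMulVec u φ)) = _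
      rw [mul_inv_cancel]
      rfl
    rw [h1, fm_smul_left, i1, hM1, het01]
    field_simp
    push_cast
    ring
  · rw [← hAu.fm c', g2]
    have h1 : (w * g) ((w * g)⁻¹ (io C δ (Matrix.vecMulVec u φ))) = io C δ (Matrix.vecMulVec u φ) := by
      change ((w * g) * (w * g)⁻¹) (io C δ (Matrix.vecMulVec u φ)) = _
      rw [mul_inv_cancel]
      rfl
    rw [h1, fm_smul_left, i2, hM2]
    field_simp

end Pool.Agent.EXC
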